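import Pool.Agent.N375.AV.D
import Pool.Agent.Results.MP_5591bc_ag.CyclicCoverProducts

/-!
# Periods of cyclic covers over all points near values of additive functions

Let `C_z : y ^ N = (x - z) ^ e₀ ∏_j (x - a_j) ^ (e_j)` be a family of cyclic covers of the line with algebraic branch points,
as in the starting theorem `CyclicCoverProducts` of this problem, which concerns the fibres over almost all points `1 / n`.
Here `n` is ANY integer near `G(F(m))`, where `F = f_1 ∘ ⋯ ∘ f_k` is a composition of functions dominated by the largest prime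
factor, such as the sum of the prime factors with multiplicity, the largest prime factor, or the least `k` with
`m ∣ k!`, `G` is increasing of order `d ≥ 1`, and `m ≤ N` is arbitrary outside a set with at most
`K N exp (- c (log N) ^ (1 / (k + 1)))` elements. The values of such `F` are a thin set with very large multiplicities.

The proof uses the number `O(T ^ (1 - c))` of the exceptional fibres and the tool `Pool.Agent.N375.AV` (helper375).
-/

set_option autoImplicit false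

namespace Pool.Agent.Results.MP_5591bc_ag.AdditiveFibresH10

open Finset
open Pool.Agent.N733.TG (Expanding)
open Pool.Agent.N375.AV (PD comp windows_unif pd_sopfr pd_largest pd_kempner)
open Pool.Agent.Results.MP_5591bc_ag.CyclicCoverProducts (Family periods DegreeStatement exceptions)

/-- **Periods over the points near values of additive functions.** Let `Γ` be a family of cyclic covers, `K` a number field
and `δ` a degree. There are a disc of radius `r > 0` and `0 < s < 1` such that for all lists `f_1, …, f_k` of functions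
dominated by the largest prime factor, all `G` with steps at least a positive constant and growth at most `v ^ d`, and all
`κ ≥ 0` with `d s + κ < 1`, there are `c > 0` and `C` such that for all `N`, for all `m ≤ N` but
`C N exp (- c (log N) ^ (1 / (k + 1)))`: for ALL `n ≥ 2` with `|n - G(F(m))| ≤ F(m) ^ κ`, `F = f_1 ∘ ⋯ ∘ f_k`, the point
`1 / n` is in the disc and the degree `δ` statement over `K` is true at `1 / n` for the periods of the fibre. -/
theorem result :
    (∀ (Γ : Family) (K : Type) [Field K] [NumberField K] [Algebra K ℂ] (δ : ℕ),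
      ∃ r : ℝ, 0 < r ∧ r ≤ Γ.ρ ∧ ∃ s : ℝ, 0 < s ∧ s < 1 ∧
        ∀ fs : List (ℕ → ℕ), (∀ f ∈ fs, PD f) → ∀ (G : ℕ → ℝ) (d κ : ℝ), Expanding G d → 0 ≤ κ → d * s + κ < 1 →
          ∃ c C : ℝ, 0 < c ∧ ∀ N : ℕ, 1 ≤ N →
            ({m : ℕ | 1 ≤ m ∧ m ≤ N ∧ ¬ ∀ n : ℕ, 2 ≤ n → |(n : ℝ) - G (comp fs m)| ≤ (comp fs m : ℝ) ^ κ →
              1 / (n : ℝ) < r ∧
              DegreeStatement K (periods fun _ : Fin 1 => Γ) r δ fun _ => 1 / (n : K)}.ncard : ℝ) ≤
              C * N * Real.exp (-(c * Real.log N ^ ((1 : ℝ) / (fs.length + 1))))) ∧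
    -- examples: the sum of the prime factors, the largest prime factor, the least `k` with `m ∣ k!`
    PD (fun m => m.primeFactorsList.sum) ∧ PD (fun m => m.primeFactors.sup id) ∧
      PD (fun m => sInf {k : ℕ | m ∣ k.factorial}) := by
  refine ⟨?_, pd_sopfr, pd_largest, pd_kempner⟩
  intro Γ K _ _ _ δ
  obtain ⟨r, hr, hrρ, c, C, hc, hC⟩ := CyclicCoverProducts.result (fun _ : Fin 1 => Γ) K δ
  obtain ⟨c₀, hc0, hc1, hcc⟩ : ∃ c₀ : ℝ, 0 < c₀ ∧ c₀ < 1 ∧ c₀ ≤ c :=
    ⟨min c (1 / 2), lt_min hc (by norm_num), (min_le_right _ _).trans_lt (by norm_num), min_le_left _ _⟩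
  refine ⟨r, hr, hrρ 0, 1 - c₀, by linarith, by linarith, fun fs hfs G d κ hG hκ h1 => ?_⟩
  obtain ⟨c', C', hc', h⟩ := windows_unif (T := ℕ) (fun t : ℕ => (t : ℝ)) fs hfs hG (s := 1 - c₀) (κ := κ) (by linarith)
    hκ h1 |C|
  refine ⟨c', C', hc', fun N hN => ?_⟩
  refine le_trans ?_ (h {n : ℕ | 2 ≤ n ∧ ¬ (1 / (n : ℝ) < r ∧
    DegreeStatement K (periods fun _ : Fin 1 => Γ) r δ fun _ => 1 / (n : K))} (fun X hX => ?_) N hN)
  · apply Nat.cast_le.2
    apply Set.ncard_le_ncard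
    · rintro m ⟨h2, h3, h4⟩
      refine ⟨h2, h3, ?_⟩
      rw [not_forall] at h4
      obtain ⟨n, h4⟩ := h4
      rw [Classical.not_imp, Classical.not_imp] at h4
      exact ⟨n, ⟨h4.1, h4.2.2⟩, h4.2.1⟩
    · apply (Set.finite_Icc 1 N).subset
      rintro m ⟨h2, h3, _⟩
      exact ⟨h2, h3⟩
  · have hX1 : 1 ≤ ⌊X⌋₊ := Nat.le_floor (by exact_mod_cast hX)
    have hfin : (exceptions K (fun _ : Fin 1 => Γ) r δ ⌊X⌋₊).Finite := by
      apply (Fintype.piFinset fun _ : Fin 1 => Finset.Icc 1 ⌊X⌋₊).finite_toSet.subset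
      intro m hm
      rw [Finset.mem_coe, Fintype.mem_piFinset]
      exact fun i => Finset.mem_Icc.2 ⟨le_trans (by norm_num) (hm.1 i).1, (hm.1 i).2⟩
    have hfin1 : {t : ℕ | t ∈ {n : ℕ | 2 ≤ n ∧ ¬ (1 / (n : ℝ) < r ∧
        DegreeStatement K (periods fun _ : Fin 1 => Γ) r δ fun _ => 1 / (n : K))} ∧ (t : ℝ) ≤ X}.Finite := by
      apply (Set.finite_Iic ⌊X⌋₊).subset
      rintro t ⟨_, ht⟩
      exact Nat.le_floor ht
    refine ⟨hfin1, ?_⟩
    have h2 : {t : ℕ | t ∈ {n : ℕ | 2 ≤ n ∧ ¬ (1 / (n : ℝ) < r ∧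
        DegreeStatement K (periods fun _ : Fin 1 => Γ) r δ fun _ => 1 / (n : K))} ∧ (t : ℝ) ≤ X}.ncard ≤
        (exceptions K (fun _ : Fin 1 => Γ) r δ ⌊X⌋₊).ncard := by
      apply Set.ncard_le_ncard_of_injOn (fun t _ => t) _ _ hfin
      · rintro t ⟨⟨h3, h4⟩, h5⟩
        refine ⟨fun l => ⟨h3, Nat.le_floor h5⟩, fun h6 => h4 ⟨h6.1 0, h6.2⟩⟩
      · intro t _ t' _ he
        exact congrFun he 0
    have h3 : ((⌊X⌋₊ : ℕ) : ℝ) ≤ X := Nat.floor_le (by linarith)
    have h4 : (1 : ℝ) ≤ ((⌊X⌋₊ : ℕ) : ℝ) := by exact_mod_cast hX1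
    calc (({t : ℕ | t ∈ {n : ℕ | 2 ≤ n ∧ ¬ (1 / (n : ℝ) < r ∧
        DegreeStatement K (periods fun _ : Fin 1 => Γ) r δ fun _ => 1 / (n : K))} ∧ (t : ℝ) ≤ X}.ncard : ℕ) : ℝ)
        ≤ ((exceptions K (fun _ : Fin 1 => Γ) r δ ⌊X⌋₊).ncard : ℝ) := Nat.cast_le.2 h2
      _ ≤ C * ((⌊X⌋₊ : ℕ) : ℝ) ^ (((1 : ℕ) : ℝ) - c) := hC _ hX1
      _ ≤ |C| * ((⌊X⌋₊ : ℕ) : ℝ) ^ (1 - c₀) := by
          apply mul_le_mul (le_abs_self C) _ (by positivity) (abs_nonneg C)
          exact Real.rpow_le_rpow_of_exponent_le h4 (by push_cast; linarith)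
      _ ≤ |C| * X ^ (1 - c₀) := by
          apply mul_le_mul_of_nonneg_left _ (abs_nonneg C)
          exact Real.rpow_le_rpow (by positivity) h3 (by linarith)

end Pool.Agent.Results.MP_5591bc_ag.AdditiveFibresH10
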