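import Pool.Agent.N671.DA.Tup
import Pool.Agent.Results.MP_5591bc_ag.CyclicCoverProducts

/-!
# Periods of products of cyclic covers over all good approximations of a system of linear forms

Let `C⁽ˡ⁾_z : y ^ N = (x - z) ^ e₀ ∏_j (x - a_j) ^ (e_j)`, `l = 1, …, p`, be families of cyclic covers of the line with
algebraic branch points (different or equal), as in the starting theorem `CyclicCoverProducts` of this problem. The starting
theorem concerns the fibres over almost all points `(1 / n_1, …, 1 / n_p)`. Here we take ALL the points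
`(1 / |q_1|, …, 1 / |q_p|)` where `q` is an integral vector of large norm for which the `m` linear forms
`∑_i q_i α_(i j) - β_j` are all within `c |q| ^ (-τ)` of integers; for example the denominators of the convergents of a real
number (`p = m = 1`, `β = 0`, `τ = 1`), of the best simultaneous approximations (`p = 1`) or the best approximation vectors of a
linear form (`m = 1`). These vectors are extremely sparse. For all matrices `α` outside a set whose Hausdorff dimension is
smaller than that of the set of the `α` with infinitely many such `q`, every relation of bounded degree over a number field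
between the periods of the fibre over such a point is the value of a relation which holds identically.

The proof uses the number `O(T ^ (p - c))` of the exceptional tuples and the tool `Pool.Agent.N671.DA` (helper671).
-/

set_option autoImplicit false

namespace Pool.Agent.Results.MP_5591bc_ag.ApproximationFibresH10

open MeasureTheory
open Pool.Agent.N671.DA (Near approx_tuples)
open Pool.Agent.Results.MP_5591bc_ag.CyclicCoverProducts (Family periods DegreeStatement exceptions)

/-- **Periods over the good approximations.** Let `Γ_1, …, Γ_p`, `p ≥ 1`, be families of cyclic covers, `K` a number field and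
`δ` a degree. There are a polydisc of radius `r > 0` and `0 < c₀ ≤ 1` such that for all `m`, all `β ∈ ℝ ^ m` and all `τ > 0`
there is a set `E` of real `p × m` matrices of Hausdorff dimension at most `(p - 1) m + (m + p - c₀) / (1 + τ)` such that for
all `α ∉ E` and all `c`, for all integral vectors `q` of large norm with `‖∑_i q_i α_(i j) - β_j‖ ≤ c |q| ^ (-τ)` for all
`j`: the point `s = (1 / |q_1|, …, 1 / |q_p|)` is in the polydisc and the degree `δ` statement over `K` is true at `s` for the
periods of the product of the fibres of the families over the coordinates of `s`. -/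
theorem result (p : ℕ) (hp : 1 ≤ p) (Γ : Fin p → Family) (K : Type) [Field K] [NumberField K] [Algebra K ℂ] (δ : ℕ) :
    ∃ r : ℝ, 0 < r ∧ (∀ l, r ≤ (Γ l).ρ) ∧ ∃ c₀ : ℝ, 0 < c₀ ∧ c₀ ≤ 1 ∧
      ∀ (m : ℕ) (β : Fin m → ℝ) (τ : ℝ), 0 < τ →
        ∃ E : Set (Fin p × Fin m → ℝ), dimH E ≤ ENNReal.ofReal (((p : ℝ) - 1) * m + (m + ((p : ℝ) - c₀)) / (1 + τ)) ∧
          ∀ α, α ∉ E → ∀ c : ℝ, ∃ Q : ℝ, ∀ q : Fin p → ℤ, Q ≤ ‖q‖ → Near α β q (c * ‖q‖ ^ (-τ)) →
            (∀ l, 2 ≤ (q l).natAbs) ∧ (∀ l, 1 / ((q l).natAbs : ℝ) < r) ∧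
              DegreeStatement K (periods Γ) r δ fun l => 1 / ((q l).natAbs : K) := by
  obtain ⟨r, hr, hrρ, c, C, hc, hC⟩ := CyclicCoverProducts.result Γ K δ
  refine ⟨r, hr, hrρ, min c 1, lt_min hc one_pos, min_le_right _ _, fun m β τ hτ => ?_⟩
  obtain ⟨E, hE, h⟩ := approx_tuples (k := p) (m := m) hp
    {w : Fin p → ℕ | ¬ ((∀ l, 1 / (w l : ℝ) < r) ∧ DegreeStatement K (periods Γ) r δ fun l => 1 / (w l : K))}
    (c₀ := min c 1) (C₀ := |C|) (min_le_right _ _) (by
      intro T hT
      have hT1 : (1 : ℝ) ≤ T := by exact_mod_cast hT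
      calc ({w : Fin p → ℕ | (∀ i, 2 ≤ w i ∧ w i ≤ T) ∧ w ∈ {w : Fin p → ℕ | ¬ ((∀ l, 1 / (w l : ℝ) < r) ∧
            DegreeStatement K (periods Γ) r δ fun l => 1 / (w l : K))}}.ncard : ℝ)
          = ((exceptions K Γ r δ T).ncard : ℝ) := rfl
        _ ≤ C * (T : ℝ) ^ ((p : ℝ) - c) := hC T hT
        _ ≤ |C| * (T : ℝ) ^ ((p : ℝ) - min c 1) := by
            apply mul_le_mul (le_abs_self C) _ (by positivity) (abs_nonneg C)
            exact Real.rpow_le_rpow_of_exponent_le hT1 (by linarith [min_le_left c 1])) β hτ
  refine ⟨E, hE, fun α hα c' => ?_⟩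
  obtain ⟨Q, hQ⟩ := h α hα c'
  refine ⟨Q, fun q hq hn => ?_⟩
  obtain ⟨h1, h2⟩ := hQ q hq hn
  rw [Set.mem_ofPred_eq, not_not] at h2
  exact ⟨h1, h2⟩

end Pool.Agent.Results.MP_5591bc_ag.ApproximationFibresH10
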