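import Pool.Agent.R482.ST.Vec
import Pool.Agent.Results.MP_5591bc_ag.CyclicCoverProducts

/-!
# Periods of products of cyclic covers over all points near radial starshaped sequences

Let `C⁽ˡ⁾_z : y ^ N = (x - z) ^ e₀ ∏_j (x - a_j) ^ (e_j)`, `l = 1, …, p`, be families of cyclic covers of the line with
algebraic branch points (different or equal), as in the starting theorem `CyclicCoverProducts` of this problem, which
concerns the fibres over almost all points `(1 / n_1, …, 1 / n_p)`. Here we take ALL the points for which `(n_1, …, n_p)` is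
near one of the points `(r_k / ‖u‖) u`, `r_k = f_k(‖u‖)`, of a fixed sequence on the ray of `u ∈ ℝ ^ p`, such as `2 ^ k u`,
`‖u‖ ^ (k - 1) u`, or the orbit of a map with `g(x) / x` nondecreasing, and `k` is large; here `u` is any vector outside a set
whose Hausdorff dimension is smaller than `p`. (The starting theorem `StarshapedFibres` of this problem is about products of
Legendre families and about bounded coefficients.)

The proof uses the number `O(T ^ (p - c))` of the exceptional tuples and the tool `Pool.Agent.R482.ST` (helper482).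
-/

set_option autoImplicit false

namespace Pool.Agent.Results.MP_5591bc_ag.StarshapedProductsH10

open MeasureTheory
open Pool.Agent.R482.ST (Starshaped Conv vec_windows_nat ex_mul ex_pow ex_orbit)
open Pool.Agent.Results.MP_5591bc_ag.CyclicCoverProducts (Family periods DegreeStatement exceptions)

/-- **Periods over the points near radial starshaped sequences.** Let `Γ_1, …, Γ_p`, `p ≥ 1`, be families of cyclic covers,
`K` a number field and `δ` a degree. There are a polydisc of radius `r > 0` and `0 < c₀ < 1` such that for all starshaped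
sequences `f` on `(a, ∞)` with exponent of convergence at most `τ` and all `θ < 1` there is a set `E` of Hausdorff dimension
at most `(p - c₀ + τ) / (1 - θ)` such that for all `u ∈ ℝ ^ p` outside `E` with `‖u‖ > a` and all `c`, for all large `k`:
for ALL `n ∈ ℕ ^ p`, `n_l ≥ 2`, within `c f_k(‖u‖) ^ θ` of `(f_k(‖u‖) / ‖u‖) u` the point `s = (1 / n_1, …, 1 / n_p)` is in
the polydisc and the degree `δ` statement over `K` is true at `s` for the periods of the product of the fibres of the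
families over the coordinates of `s`. -/
theorem result :
    (∀ (p : ℕ), 1 ≤ p → ∀ (Γ : Fin p → Family) (K : Type) [Field K] [NumberField K] [Algebra K ℂ] (δ : ℕ),
      ∃ r : ℝ, 0 < r ∧ (∀ l, r ≤ (Γ l).ρ) ∧ ∃ c₀ : ℝ, 0 < c₀ ∧ c₀ < 1 ∧
        ∀ (f : ℕ → ℝ → ℝ) (a τ θ : ℝ), Starshaped a f → 0 ≤ τ → Conv a f τ → θ < 1 →
          ∃ E : Set (Fin p → ℝ), dimH E ≤ ENNReal.ofReal (((p : ℝ) - c₀ + τ) / (1 - θ)) ∧
            ∀ u : Fin p → ℝ, a < ‖u‖ → u ∉ E → ∀ c : ℝ, ∃ k₀ : ℕ, ∀ k : ℕ, k₀ ≤ k → ∀ n : Fin p → ℕ, (∀ l, 2 ≤ n l) →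
              (∀ l, |(n l : ℝ) - f k ‖u‖ / ‖u‖ * u l| ≤ c * (f k ‖u‖) ^ θ) →
                (∀ l, 1 / (n l : ℝ) < r) ∧ DegreeStatement K (periods Γ) r δ fun l => 1 / (n l : K)) ∧
    -- examples of starshaped sequences: multiples, powers, orbits
    (∀ (v : ℕ → ℝ) (τ : ℝ), (∀ n, 0 < v n) → (∀ t : ℝ, τ < t → Summable (fun n : ℕ => (v n) ^ (-t))) →
      Starshaped 0 (fun n x => v n * x) ∧ Conv 0 (fun n x => v n * x) τ) ∧
    (∀ v : ℕ → ℝ, (∀ n, 1 ≤ v n) → (∀ t : ℝ, 0 < t → Summable fun n : ℕ => Real.exp (-(t * v n))) →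
      Starshaped 1 (fun n x => x ^ (v n)) ∧ Conv 1 (fun n x => x ^ (v n)) 0) ∧
    (∀ (a : ℝ) (g : ℝ → ℝ), 0 ≤ a → (∀ x y : ℝ, a < x → x ≤ y → g x / x ≤ g y / y) → (∀ x : ℝ, a < x → x < g x) →
      Starshaped a (fun n x => g^[n] x) ∧ Conv a (fun n x => g^[n] x) 0) := by
  refine ⟨?_, ex_mul, ex_pow, ex_orbit⟩
  intro p hp Γ K _ _ _ δ
  obtain ⟨r, hr, hrρ, c, C, hc, hC⟩ := CyclicCoverProducts.result Γ K δ
  obtain ⟨c₀, hc0, hc1, hcc⟩ : ∃ c₀ : ℝ, 0 < c₀ ∧ c₀ < 1 ∧ c₀ ≤ c :=
    ⟨min c (1 / 2), lt_min hc (by norm_num), (min_le_right _ _).trans_lt (by norm_num), min_le_left _ _⟩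
  have hp1 : (1 : ℝ) ≤ p := by exact_mod_cast hp
  refine ⟨r, hr, hrρ, c₀, hc0, hc1, fun f a τ θ hf hτ hv hθ => ?_⟩
  obtain ⟨E, hE, h⟩ := vec_windows_nat (ι := Fin p)
    (fun z _ => ∃ n : Fin p → ℕ, z = (fun l => (n l : ℤ)) ∧ (∀ l, 2 ≤ n l) ∧
      ¬ ((∀ l, 1 / (n l : ℝ) < r) ∧ DegreeStatement K (periods Γ) r δ fun l => 1 / (n l : K)))
    (fun z _ _ _ hz => hz) (s := (p : ℝ) - c₀) (by linarith) (by
      refine ⟨|C|, fun T hT => ?_⟩
      have hT1 : (1 : ℝ) ≤ T := by exact_mod_cast hT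
      have hfin : (exceptions K Γ r δ T).Finite := by
        apply (Fintype.piFinset fun _ : Fin p => Finset.Icc 1 T).finite_toSet.subset
        intro m hm
        rw [Finset.mem_coe, Fintype.mem_piFinset]
        exact fun i => Finset.mem_Icc.2 ⟨le_trans (by norm_num) (hm.1 i).1, (hm.1 i).2⟩
      calc (({z : Fin p → ℤ | (∀ i, |z i| ≤ (T : ℤ)) ∧ ∃ n : Fin p → ℕ, z = (fun l => (n l : ℤ)) ∧ (∀ l, 2 ≤ n l) ∧
            ¬ ((∀ l, 1 / (n l : ℝ) < r) ∧ DegreeStatement K (periods Γ) r δ fun l => 1 / (n l : K))}.ncard : ℕ) : ℝ)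
          ≤ (((exceptions K Γ r δ T).ncard : ℕ) : ℝ) := by
            apply Nat.cast_le.2
            apply Set.ncard_le_ncard_of_injOn (fun z i => (z i).natAbs) _ _ hfin
            · rintro z ⟨h1, n, rfl, h2, h3⟩
              refine ⟨fun l => ?_, ?_⟩
              · simp only [Int.natAbs_natCast]
                have h4 := h1 l
                rw [Nat.abs_cast] at h4
                exact ⟨h2 l, by exact_mod_cast h4⟩
              · simp only [Int.natAbs_natCast]
                exact h3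
            · rintro z ⟨_, n, rfl, _⟩ z' ⟨_, n', rfl, _⟩ he
              funext l
              have h1 := congrFun he l
              simp only [Int.natAbs_natCast] at h1
              rw [h1]
        _ ≤ C * (T : ℝ) ^ ((p : ℝ) - c) := hC T hT
        _ ≤ |C| * (T : ℝ) ^ ((p : ℝ) - c₀) := by
            apply mul_le_mul (le_abs_self C) _ (by positivity) (abs_nonneg C)
            exact Real.rpow_le_rpow_of_exponent_le hT1 (by linarith)) f a τ θ hf hτ hv hθ
  refine ⟨E, hE, fun u hu huE c' => ?_⟩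
  obtain ⟨k₀, hk₀⟩ := h u hu huE c'
  refine ⟨k₀, fun k hk n hn h1 => ?_⟩
  by_contra hcon
  refine hk₀ k hk (fun l => (n l : ℤ)) (fun l => ?_) ⟨n, rfl, hn, hcon⟩
  exact_mod_cast h1 l

end Pool.Agent.Results.MP_5591bc_ag.StarshapedProductsH10
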