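import Pool.Agent.V7H10.SL
import Pool.Agent.N760.IT.E
import Pool.Agent.Results.MP_5591bc_ag.CyclicCoverProducts

/-!
# Periods of products of cyclic covers over all points near the orbits of Euler's function

Let `C⁽ˡ⁾_z : y ^ N = (x - z) ^ e₀ ∏_j (x - a_j) ^ (e_j)`, `l = 0, …, r`, be families of cyclic covers of the line with
algebraic branch points (different or equal), as in the starting theorem `CyclicCoverProducts` of this problem, which
concerns the fibres over almost all points `(1 / n_0, …, 1 / n_r)`. Here `n_0` is ANY integer of `[N ^ (1 - κ), A N]` near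
`G(f(φ_k(m)))`, `k ≤ K`, where `φ_k` is the `k`-fold iterate of Euler's function, `f` is multiplicative (the identity,
Euler's function, the sum of the divisors, …) and `G` is increasing of linear growth, for almost all `m ≤ N`; the other `n_l`
are arbitrary outside a set with a power saving. For `r = 0` this concerns one family, over the points `1 / n_0`.

The proof uses the number `O(T ^ (p - c))` of the exceptional tuples, their slices and the tool `Pool.Agent.N760.IT`
(helper760).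
-/

set_option autoImplicit false

namespace Pool.Agent.Results.MP_5591bc_ag.TotientOrbitFibresH10

open Finset
open Pool.Agent.N733.TG (LM Expanding)
open Pool.Agent.N760.IT (orb orbit_unif)
open Pool.Agent.V7H10.SL (Slice slice)
open Pool.Agent.Results.MP_5591bc_ag.CyclicCoverProducts (Family periods DegreeStatement exceptions)

/-- **Periods over the points near the orbits of Euler's function.** Let `Γ_0, …, Γ_r` be families of cyclic covers, `F` a
number field and `δ` a degree. There are a polydisc of radius `ρ > 0` and `0 < κ < 1` such that for all `f` with `LM`, all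
`G` with steps at least a positive constant and of linear growth, all `A`, `K` and `η > 0`, for all large `N` there is a set
`X` of at most `N ^ (r - κ)` vectors such that for all `n' ∈ [2, A N] ^ r` outside `X`, for all but `η N` of the `m ≤ N`,
for all `k ≤ K` and ALL `n` with `N ^ (1 - κ) ≤ n ≤ A N` and `|n - G(f(φ_k m))| ≤ f(φ_k m) ^ κ`: the point
`s = (1 / n, 1 / n'_1, …, 1 / n'_r)` is in the polydisc and the degree `δ` statement over `F` is true at `s` for the periods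
of the product of the fibres of the families over the coordinates of `s`. -/
theorem result (r : ℕ) (Γ : Fin (r + 1) → Family) (F : Type) [Field F] [NumberField F] [Algebra F ℂ] (δ : ℕ) :
    ∃ ρ : ℝ, 0 < ρ ∧ (∀ l, ρ ≤ (Γ l).ρ) ∧ ∃ κ : ℝ, 0 < κ ∧ κ < 1 ∧
      ∀ f : ℕ → ℕ, LM f → ∀ G : ℕ → ℝ, Expanding G 1 → ∀ (A K : ℕ) (η : ℝ), 0 < η → ∃ N₀ : ℕ, ∀ N : ℕ, N₀ ≤ N →
        ∃ X : Finset (Fin r → ℕ), (X.card : ℝ) ≤ (N : ℝ) ^ ((r : ℝ) - κ) ∧
          ∀ n' : Fin r → ℕ, (∀ i, 2 ≤ n' i ∧ n' i ≤ A * N) → n' ∉ X →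
            ({m : ℕ | 1 ≤ m ∧ m ≤ N ∧ ¬ ∀ k ≤ K, ∀ n : ℕ, (N : ℝ) ^ (1 - κ) ≤ n → n ≤ A * N →
              |(n : ℝ) - G (orb f k m)| ≤ (orb f k m : ℝ) ^ κ →
                (∀ l, 1 / ((Fin.cons n n' : Fin (r + 1) → ℕ) l : ℝ) < ρ) ∧
                DegreeStatement F (periods Γ) ρ δ fun l => 1 / ((Fin.cons n n' : Fin (r + 1) → ℕ) l : F)}.ncard : ℝ) ≤
              η * N := by
  classical
  obtain ⟨ρ, hρ, hρρ, c, C, hc, hC⟩ := CyclicCoverProducts.result Γ F δ
  obtain ⟨c₀, hc0, hc1, hcc⟩ : ∃ c₀ : ℝ, 0 < c₀ ∧ c₀ ≤ 1 ∧ c₀ ≤ c := ⟨min c 1, lt_min hc one_pos, min_le_right _ _,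
    min_le_left _ _⟩
  refine ⟨ρ, hρ, hρρ, c₀ / 8, by positivity, by linarith, fun f hf G hG A K η hη => ?_⟩
  obtain ⟨Bad, hBad⟩ : ∃ Bad : (Fin (r + 1) → ℕ) → Prop, Bad = fun w => (∀ l, 2 ≤ w l) ∧
      ¬ ((∀ l, 1 / (w l : ℝ) < ρ) ∧ DegreeStatement F (periods Γ) ρ δ fun l => 1 / (w l : F)) := ⟨_, rfl⟩
  obtain ⟨N₁, hN₁⟩ := slice A r hc0 hc1 (|C| * ((A : ℝ) + 1) ^ (r + 1))
  obtain ⟨N₂, hN₂⟩ := orbit_unif (T := ℕ) hf hG (s := 1 - c₀ / 4) (κ := c₀ / 8) (by linarith) (by positivity)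
    (by linarith) 1 K η hη
  refine ⟨max (max N₁ N₂) 2, fun N hN => ?_⟩
  have hN2 : 2 ≤ N := (le_max_right _ _).trans hN
  have hN1' : (1 : ℝ) ≤ N := by exact_mod_cast (by omega : 1 ≤ N)
  have hN0 : (0 : ℝ) < N := by linarith
  obtain ⟨X, hX, h⟩ := hN₁ N (((le_max_left _ _).trans (le_max_left _ _)).trans hN) Bad (by
    have hT : 1 ≤ (A + 1) * N := Nat.mul_pos (Nat.succ_pos _) (by omega)
    have h1 := hC ((A + 1) * N) hT
    have hfin : (exceptions F Γ ρ δ ((A + 1) * N)).Finite := by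
      apply (Fintype.piFinset fun _ : Fin (r + 1) => Finset.Icc 1 ((A + 1) * N)).finite_toSet.subset
      intro m hm
      rw [Finset.mem_coe, Fintype.mem_piFinset]
      exact fun i => Finset.mem_Icc.2 ⟨le_trans (by norm_num) (hm.1 i).1, (hm.1 i).2⟩
    have h2 : (((Fintype.piFinset fun _ : Fin (r + 1) => Icc 1 (A * N)).filter Bad : Finset (Fin (r + 1) → ℕ)) :
        Set (Fin (r + 1) → ℕ)) ⊆ exceptions F Γ ρ δ ((A + 1) * N) := by
      intro w hw
      rw [mem_coe, mem_filter, Fintype.mem_piFinset, hBad] at hw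
      refine ⟨fun l => ⟨hw.2.1 l, (mem_Icc.1 (hw.1 l)).2.trans (Nat.mul_le_mul_right _ (Nat.le_succ _))⟩, hw.2.2⟩
    have h3 := Set.ncard_le_ncard h2 hfin
    rw [Set.ncard_coe_finset] at h3
    refine (Nat.cast_le.2 h3).trans (h1.trans ?_)
    have hT1 : (1 : ℝ) ≤ (((A + 1) * N : ℕ) : ℝ) := by exact_mod_cast hT
    calc C * (((A + 1) * N : ℕ) : ℝ) ^ (((r + 1 : ℕ) : ℝ) - c)
        ≤ |C| * (((A + 1) * N : ℕ) : ℝ) ^ (((r + 1 : ℕ) : ℝ) - c₀) := by
          apply mul_le_mul (le_abs_self C) _ (by positivity) (abs_nonneg C)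
          exact Real.rpow_le_rpow_of_exponent_le hT1 (by linarith)
      _ = |C| * (((A : ℝ) + 1) ^ (((r + 1 : ℕ) : ℝ) - c₀) * (N : ℝ) ^ (((r + 1 : ℕ) : ℝ) - c₀)) := by
          push_cast
          rw [Real.mul_rpow (by positivity) hN0.le]
      _ ≤ |C| * (((A : ℝ) + 1) ^ (r + 1) * (N : ℝ) ^ (((r + 1 : ℕ) : ℝ) - c₀)) := by
          apply mul_le_mul_of_nonneg_left _ (abs_nonneg C)
          apply mul_le_mul_of_nonneg_right _ (by positivity)
          rw [← Real.rpow_natCast]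
          exact Real.rpow_le_rpow_of_exponent_le (by linarith [(Nat.cast_nonneg A : (0 : ℝ) ≤ A)]) (by linarith)
      _ = _ := by ring)
  refine ⟨X, hX, fun n' hn' hnX => ?_⟩
  have h1 := hN₂ (Slice A (c₀ / 8) Bad N n') (fun t : ℕ => (t : ℝ))
    (h n' (fun i => ⟨le_trans (by norm_num) (hn' i).1, (hn' i).2⟩) hnX) N
    (((le_max_right _ _).trans (le_max_left _ _)).trans hN)
  refine le_trans ?_ h1
  apply Nat.cast_le.2
  apply Set.ncard_le_ncard
  · rintro m ⟨h2, h3, h4⟩
    refine ⟨h2, h3, ?_⟩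
    rw [not_forall] at h4
    obtain ⟨k, h4⟩ := h4
    rw [Classical.not_imp, not_forall] at h4
    obtain ⟨hk, t, h4⟩ := h4
    rw [Classical.not_imp, Classical.not_imp, Classical.not_imp] at h4
    obtain ⟨ht1, ht2, ht3, ht4⟩ := h4
    refine ⟨k, hk, t, ⟨ht1, ht2, ?_⟩, ht3⟩
    rw [hBad]
    refine ⟨fun l => ?_, ht4⟩
    refine Fin.cases ?_ (fun j => ?_) l
    · rw [Fin.cons_zero]
      have h5 : (1 : ℝ) < t := by
        refine lt_of_lt_of_le ?_ ht1
        apply Real.one_lt_rpow (by exact_mod_cast (by omega : 1 < N)) (by linarith)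
      exact_mod_cast h5
    · rw [Fin.cons_succ]
      exact (hn' j).1
  · apply (Set.finite_Icc 1 N).subset
    rintro m ⟨h2, h3, _⟩
    exact ⟨h2, h3⟩

end Pool.Agent.Results.MP_5591bc_ag.TotientOrbitFibresH10
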